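import Pool.Agent.H732.RS.Lam

/-!
# Regressive coordinates and the core lemma
-/

set_option autoImplicit false

namespace Pool.Agent.H732.RS

open Cardinal Set

/-- Sequences of elements of `E`. -/
abbrev B : Type := ℕ → E

/-- A countable type of values. -/
abbrev Q : Type := Option (Bool × Bool × ℕ)

/-- The values of coordinates. -/
abbrev V : Type := Q ⊕ B

/-- A value is small below `η` if it is in `Q` or all its entries are at most `η`. -/
def small (η : Lam) : V → Prop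
  | Sum.inl _ => True
  | Sum.inr b => ∀ i, (b i : Lam) ≤ η

theorem small_mono {η η' : Lam} (h : η ≤ η') {v : V} (hv : small η v) : small η' v := by
  rcases v with q | b
  · trivial
  · exact fun i => (hv i).trans h

/-- `c` is regressive in the coordinate `j`. -/
def Reg (j : ℕ) (c : B → V) : Prop :=
  ∃ h : Lam → Lam, ∀ a : B, Good h (a j) → ∃ η < (a j : Lam), small η (c a)

/-- The regressive coordinates. -/
abbrev Co (j : ℕ) : Type := {c : B → V // Reg j c}

theorem reg_inl (j : ℕ) (c : B → V) (hc : ∀ a, ∃ q, c a = Sum.inl q) : Reg j c := by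
  refine ⟨fun η => η, fun a ha => ?_⟩
  obtain ⟨⟨η, hη⟩, _⟩ := ha
  obtain ⟨q, hq⟩ := hc a
  exact ⟨η, hη, by rw [hq]; trivial⟩

theorem mk_small_le (η : Lam) : #{v : V | small η v} ≤ 𝔠 := by
  -- inject into `Q ⊕ (ℕ → Iic η)`
  let g : {v : V | small η v} → Q ⊕ (ℕ → Iic η) := fun v => match v with
    | ⟨Sum.inl q, _⟩ => Sum.inl q
    | ⟨Sum.inr b, hb⟩ => Sum.inr fun i => ⟨(b i : Lam), hb i⟩
  have hg : Function.Injective g := by
    rintro ⟨v | v, hv⟩ ⟨w | w, hw⟩ h
    · simp only [g, Sum.inl.injEq] at h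
      subst h; rfl
    · simp [g] at h
    · simp [g] at h
    · simp only [g, Sum.inr.injEq] at h
      have : v = w := by
        funext i
        have := congrFun h i
        simp only [Subtype.mk.injEq] at this
        exact Subtype.ext this
      subst this; rfl
  refine (mk_le_of_injective hg).trans ?_
  rw [mk_sum, lift_id, lift_id]
  refine add_le_of_le aleph0_le_continuum ?_ ?_
  · exact (mk_le_aleph0).trans aleph0_le_continuum
  · rw [mk_arrow, lift_id, lift_id, mk_nat]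
    calc #(Iic η) ^ ℵ₀ ≤ 𝔠 ^ ℵ₀ := power_le_power_right (mk_Iic_le η)
      _ = 𝔠 := continuum_power_aleph0

/-- All entries of the pattern `q` lie in `K` and have small values. -/
def AllIn {j : ℕ} (K : Set (Co j)) (η : Lam) (q : List (Co j × V)) : Prop :=
  ∀ p ∈ q, p.1 ∈ K ∧ small η p.2

theorem mk_allIn_le {j : ℕ} (K : Set (Co j)) (hK : #K ≤ 𝔠) (η : Lam) :
    #{q : List (Co j × V) | AllIn K η q} ≤ 𝔠 := by
  -- surject from lists over `K × small`
  let g : List (K × {v : V | small η v}) → {q : List (Co j × V) | AllIn K η q} := fun l =>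
    ⟨l.map fun p => (p.1.1, p.2.1), by
      intro p hp
      rw [List.mem_map] at hp
      obtain ⟨r, _, rfl⟩ := hp
      exact ⟨r.1.2, r.2.2⟩⟩
  have hg : Function.Surjective g := by
    rintro ⟨q, hq⟩
    refine ⟨q.attach.map fun p => (⟨p.1.1, (hq p.1 p.2).1⟩, ⟨p.1.2, (hq p.1 p.2).2⟩), ?_⟩
    apply Subtype.ext
    simp only [g, List.map_map]
    conv_rhs => rw [← List.attach_map_subtype_val q]
    rfl
  refine (mk_le_of_surjective hg).trans ?_
  refine (mk_list_le_max _).trans ?_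
  refine max_le aleph0_le_continuum ?_
  rw [mk_prod, lift_id, lift_id]
  exact mul_le_of_le aleph0_le_continuum hK (mk_small_le η)

/-- The core lemma. -/
theorem core (j : ℕ) (R : Set B) (F : B → Finset (Co j))
    (hF : ∀ a ∈ R, ∀ a' ∈ R, a ≠ a' → ∃ c ∈ F a, c ∈ F a' ∧ c.1 a ≠ c.1 a') :
    ∃ h : Lam → Lam, ∀ a ∈ R, ¬ Good h (a j) := by
  classical
  rcases R.eq_empty_or_nonempty with hR | ⟨a0, ha0⟩
  · exact ⟨fun η => η, fun a ha => by simp [hR] at ha⟩
  -- realizations of patterns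
  let Real : List (Co j × V) → B → Prop := fun q a => a ∈ R ∧ ∀ p ∈ q, p.1 ∈ F a ∧ p.1.1 a = p.2
  have hch : ∀ q : List (Co j × V), ∃ a : B, (∃ a', Real q a') → Real q a := by
    intro q
    by_cases h : ∃ a', Real q a'
    · obtain ⟨a', ha'⟩ := h
      exact ⟨a', fun _ => ha'⟩
    · exact ⟨a0, fun h' => absurd h' h⟩
  choose r hr using hch
  -- the recursion
  let step : (η : Lam) → ((η' : Lam) → η' < η → Set (Co j)) → Set (Co j) := fun η K =>
    {c | ∃ (η' : Lam) (hη : η' < η) (q : List (Co j × V)), AllIn (K η' hη) η' q ∧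
      (∃ a', Real q a') ∧ c ∈ F (r q)}
  obtain ⟨K, hK⟩ : ∃ K : Lam → Set (Co j), ∀ η, K η = {c | ∃ η' < η, ∃ q : List (Co j × V),
      AllIn (K η') η' q ∧ (∃ a', Real q a') ∧ c ∈ F (r q)} := by
    refine ⟨WellFounded.fix (wellFounded_lt (α := Lam)) step, fun η => ?_⟩
    conv_lhs => rw [WellFounded.fix_eq]
    ext c
    simp only [step, mem_ofPred_eq, exists_prop]
  have hmono : ∀ {η η' : Lam}, η ≤ η' → K η ⊆ K η' := by
    intro η η' h c hc
    rw [hK] at hc ⊢
    obtain ⟨ζ, hζ, q, h1⟩ := hc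
    exact ⟨ζ, hζ.trans_le h, q, h1⟩
  have hcard : ∀ η, #(K η) ≤ 𝔠 := by
    intro η
    induction η using WellFounded.induction (wellFounded_lt (α := Lam)) with
    | _ η ih =>
      have h1 : K η ⊆ ⋃ ζ : Iio η, ⋃ q : {q : List (Co j × V) | AllIn (K ζ.1) ζ.1 q},
          ((F (r q.1) : Finset (Co j)) : Set (Co j)) := by
        intro c hc
        rw [hK] at hc
        obtain ⟨ζ, hζ, q, h1, _, h2⟩ := hc
        refine mem_iUnion.2 ⟨⟨ζ, hζ⟩, mem_iUnion.2 ⟨⟨q, h1⟩, h2⟩⟩
      refine (mk_le_mk_of_subset h1).trans ?_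
      refine (mk_iUnion_le _).trans ?_
      refine mul_le_of_le aleph0_le_continuum (mk_Iio_le η) ?_
      rcases isEmpty_or_nonempty (Iio η) with hE | hE
      · rw [ciSup_of_empty]; exact bot_le
      refine ciSup_le fun ζ => ?_
      refine (mk_iUnion_le _).trans ?_
      refine mul_le_of_le aleph0_le_continuum (mk_allIn_le _ (ih ζ.1 ζ.2) _) ?_
      rcases isEmpty_or_nonempty {q : List (Co j × V) | AllIn (K ζ.1) ζ.1 q} with hE | hE
      · rw [ciSup_of_empty]; exact bot_le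
      refine ciSup_le fun q => ?_
      exact ((Finset.finite_toSet _).lt_aleph0.le).trans aleph0_le_continuum
  -- the functions `h_c`
  have hreg : ∀ c : Co j, ∃ h : Lam → Lam, ∀ a : B, Good h (a j) →
      ∃ η < (a j : Lam), small η (c.1 a) := fun c => c.2
  choose hc hhc using hreg
  -- the function `h`
  have hh : ∀ η : Lam, ∃ β : Lam, η < β ∧ (∀ c ∈ K η, ∀ ζ ≤ η, hc c ζ < β) ∧
      (∀ q, AllIn (K η) η q → (r q j : Lam) < β) := by
    intro η
    obtain ⟨β1, hβ1⟩ := bdd (ι := Unit) (by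
      rw [mk_unit]; exact (one_le_aleph0).trans aleph0_le_continuum) (fun _ => η)
    obtain ⟨β2, hβ2⟩ := bdd (ι := K η × Iic η) (by
      rw [mk_prod, lift_id, lift_id]
      exact mul_le_of_le aleph0_le_continuum (hcard η) (mk_Iic_le η))
      (fun p => hc p.1.1 p.2.1)
    obtain ⟨β3, hβ3⟩ := bdd (ι := {q : List (Co j × V) | AllIn (K η) η q})
      (mk_allIn_le _ (hcard η) _) (fun q => (r q.1 j : Lam))
    refine ⟨max β1 (max β2 β3), lt_max_of_lt_left (hβ1 ()), fun c hcK ζ hζ => ?_, fun q hq => ?_⟩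
    · exact lt_max_of_lt_right (lt_max_of_lt_left (hβ2 (⟨c, hcK⟩, ⟨ζ, hζ⟩)))
    · exact lt_max_of_lt_right (lt_max_of_lt_right (hβ3 ⟨q, hq⟩))
  choose h h1 h2 h3 using hh
  refine ⟨h, fun a ha hgood => ?_⟩
  obtain ⟨⟨η0, hη0⟩, hcl⟩ := hgood
  -- elements of `K ξ` occur earlier
  have hearly : ∀ c ∈ K (a j), ∃ ζ < (a j : Lam), c ∈ K ζ := by
    intro c hcK
    rw [hK] at hcK
    obtain ⟨ζ, hζ, q, hq1, hq2, hq3⟩ := hcK
    refine ⟨h ζ, hcl ζ hζ, ?_⟩
    rw [hK]
    exact ⟨ζ, h1 ζ, q, hq1, hq2, hq3⟩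
  have hgoodc : ∀ c ∈ K (a j), Good (hc c) (a j) := by
    intro c hcK
    refine ⟨⟨η0, hη0⟩, fun η hη => ?_⟩
    obtain ⟨ζ, hζ, hcζ⟩ := hearly c hcK
    have h4 : max η ζ < (a j : Lam) := max_lt hη hζ
    exact (h2 (max η ζ) c (hmono (le_max_right _ _) hcζ) η (le_max_left _ _)).trans (hcl _ h4)
  have hsm : ∀ c ∈ K (a j), ∃ ζ < (a j : Lam), c ∈ K ζ ∧ small ζ (c.1 a) := by
    intro c hcK
    obtain ⟨ζ, hζ, hcζ⟩ := hearly c hcK
    obtain ⟨η, hη, hs⟩ := hhc c a (hgoodc c hcK)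
    exact ⟨max η ζ, max_lt hη hζ, hmono (le_max_right _ _) hcζ, small_mono (le_max_left _ _) hs⟩
  -- a common bound for a finite set
  have hfin : ∀ s : Finset (Co j), (∀ c ∈ s, c ∈ K (a j)) →
      ∃ ζ < (a j : Lam), ∀ c ∈ s, c ∈ K ζ ∧ small ζ (c.1 a) := by
    intro s
    induction s using Finset.induction_on with
    | empty => exact fun _ => ⟨η0, hη0, by simp⟩
    | insert c s _ ih =>
      intro hs
      obtain ⟨ζ, hζ, h4⟩ := ih fun c hcs => hs c (Finset.mem_insert_of_mem hcs)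
      obtain ⟨ζ', hζ', h5, h6⟩ := hsm c (hs c (Finset.mem_insert_self _ _))
      refine ⟨max ζ ζ', max_lt hζ hζ', fun c' hc' => ?_⟩
      rw [Finset.mem_insert] at hc'
      rcases hc' with rfl | hc'
      · exact ⟨hmono (le_max_right _ _) h5, small_mono (le_max_right _ _) h6⟩
      · exact ⟨hmono (le_max_left _ _) (h4 c' hc').1, small_mono (le_max_left _ _) (h4 c' hc').2⟩
  obtain ⟨ζ, hζ, hζ2⟩ := hfin ((F a).filter (· ∈ K (a j))) (by simp)
  let q : List (Co j × V) := ((F a).filter (· ∈ K (a j))).toList.map fun c => (c, c.1 a)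
  have hq1 : AllIn (K ζ) ζ q := by
    intro p hp
    simp only [q, List.mem_map, Finset.mem_toList] at hp
    obtain ⟨c, hc1, rfl⟩ := hp
    exact hζ2 c hc1
  have hq2 : Real q a := by
    refine ⟨ha, fun p hp => ?_⟩
    simp only [q, List.mem_map, Finset.mem_toList, Finset.mem_filter] at hp
    obtain ⟨c, hc1, rfl⟩ := hp
    exact ⟨hc1.1, rfl⟩
  have hq3 : Real q (r q) := hr q ⟨a, hq2⟩
  have hq4 : (r q j : Lam) < a j := (h3 ζ q hq1).trans (hcl ζ hζ)
  have hne : a ≠ r q := by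
    intro h4
    rw [← h4] at hq4
    exact lt_irrefl _ hq4
  obtain ⟨c, hc1, hc2, hc3⟩ := hF a ha (r q) hq3.1 hne
  have hcK : c ∈ K (a j) := by
    rw [hK]
    exact ⟨ζ, hζ, q, hq1, ⟨a, hq2⟩, hc2⟩
  have hcq : (c, c.1 a) ∈ q := by
    simp only [q, List.mem_map, Finset.mem_toList, Finset.mem_filter]
    exact ⟨c, ⟨hc1, hcK⟩, rfl⟩
  exact hc3 ((hq3.2 _ hcq).2).symm

end Pool.Agent.H732.RS
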