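import Pool.Agent.H732.RS.Normal

/-!
# The perfect map, the non normal product and the main theorem
-/

set_option autoImplicit false

namespace Pool.Agent.H732.RS

open Cardinal Set Topology TopologicalSpace

/-- A default element of the Baire space. -/
noncomputable def b0 : B := fun _ => ⟨(exists_good id).choose, (exists_good id).choose_spec.1⟩

/-! ### `YY` and `ZZ` are normal -/

instance : NormalSpace YY where
  normal := by
    intro s t hs ht hd
    have h1 : IsClosed ((univ : Set XX) ×ˢ s) := isClosed_univ.prod hs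
    have h2 : IsClosed ((univ : Set XX) ×ˢ t) := isClosed_univ.prod ht
    have h3 : Disjoint ((univ : Set XX) ×ˢ s) ((univ : Set XX) ×ˢ t) := by
      rw [disjoint_left]
      rintro ⟨x, y⟩ ⟨_, h⟩ ⟨_, h'⟩
      exact (disjoint_left.1 hd) h h'
    obtain ⟨W, hW, h4, h5⟩ := sepXY h1 h2 h3
    have hc : Continuous fun y : YY => (XX.pt b0, y) := by fun_prop
    refine ⟨(fun y : YY => (XX.pt b0, y)) ⁻¹' W, (fun y : YY => (XX.pt b0, y)) ⁻¹' Wᶜ,
      hW.2.preimage hc, hW.compl.2.preimage hc, ?_, ?_, ?_⟩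
    · intro y hy
      exact h4 ⟨trivial, hy⟩
    · intro y hy hy'
      exact (disjoint_left.1 h5) hy' ⟨trivial, hy⟩
    · exact Disjoint.preimage _ disjoint_compl_right

instance : NormalSpace ZZ where
  normal := by
    intro s t hs ht hd
    obtain ⟨U, V, hU, hV, hsU, htV, hUV⟩ := NormalSpace.normal (ff ⁻¹' s) (ff ⁻¹' t)
      (hs.preimage continuous_ff) (ht.preimage continuous_ff) (hd.preimage ff)
    refine ⟨(ff '' Uᶜ)ᶜ, (ff '' Vᶜ)ᶜ, (isClosedMap_ff _ hU.isClosed_compl).isOpen_compl,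
      (isClosedMap_ff _ hV.isClosed_compl).isOpen_compl, ?_, ?_, ?_⟩
    · rintro z hz ⟨y, hy, rfl⟩
      exact hy (hsU hz)
    · rintro z hz ⟨y, hy, rfl⟩
      exact hy (htV hz)
    · rw [disjoint_left]
      intro z h1 h2
      obtain ⟨y, rfl⟩ := surjective_ff z
      have h3 : y ∈ U := by
        by_contra h; exact h1 ⟨y, h, rfl⟩
      have h4 : y ∈ V := by
        by_contra h; exact h2 ⟨y, h, rfl⟩
      exact (disjoint_left.1 hUV) h3 h4

instance : T4Space YY where

instance : T4Space ZZ where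

/-! ### The perfect map onto a metrizable space -/

/-- The topology of the product of discrete spaces. -/
@[reducible] def topB : TopologicalSpace B := @Pi.topologicalSpace ℕ (fun _ => E) (fun _ => ⊥)

/-- The two to one map. -/
def pp : XX → B
  | XX.pt a => a
  | XX.iso a => a

theorem completeB : @IsCompletelyMetrizableSpace B topB := by
  letI : TopologicalSpace E := ⊥
  haveI : DiscreteTopology E := ⟨rfl⟩
  exact IsCompletelyMetrizableSpace.pi_countable

theorem metrizableB : @MetrizableSpace B topB := by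
  letI : TopologicalSpace B := topB
  haveI := completeB
  infer_instance

theorem continuous_pp : @Continuous XX B _ topB pp := by
  letI : TopologicalSpace E := ⊥
  haveI : DiscreteTopology E := ⟨rfl⟩
  change Continuous pp
  rw [continuous_pi_iff]
  intro i
  apply IsLocallyConstant.continuous
  apply XX.locConst
  intro a
  refine ⟨i + 1, fun b hb => ?_⟩
  have : b i = a i := hb i (Nat.lt_succ_self i)
  exact ⟨this, fun _ => this⟩

theorem isOpen_cyl (n : ℕ) (b : B) : @IsOpen B topB (cyl n b) := by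
  letI : TopologicalSpace E := ⊥
  haveI : DiscreteTopology E := ⟨rfl⟩
  change IsOpen (cyl n b)
  have h : cyl n b = ⋂ i ∈ Finset.range n, (fun x : B => x i) ⁻¹' {b i} := by
    ext x; simp [mem_cyl]
  rw [h]
  refine isOpen_biInter_finset fun i _ => ?_
  exact (isOpen_discrete _).preimage (continuous_apply i)

theorem isClosedMap_pp : @IsClosedMap XX B _ topB pp := by
  letI : TopologicalSpace B := topB
  intro K hK
  rw [← isOpen_compl_iff, isOpen_iff_forall_mem_open]
  intro b hb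
  have h1 : XX.pt b ∈ Kᶜ := fun h => hb ⟨_, h, rfl⟩
  have h2 : XX.iso b ∉ K := fun h => hb ⟨_, h, rfl⟩
  obtain ⟨n, hn⟩ := XX.bas_subset hK.isOpen_compl h1
  refine ⟨cyl n b, ?_, isOpen_cyl n b, mem_cyl_self n b⟩
  rintro c hc ⟨x, hx, rfl⟩
  rcases x with a | a
  · exact hn (show XX.pt a ∈ XX.bas n b from hc) hx
  · by_cases hab : a = b
    · subst hab; exact h2 hx
    · exact hn (show XX.iso a ∈ XX.bas n b from ⟨hc, hab⟩) hx

theorem surjective_pp : Function.Surjective pp := fun b => ⟨XX.pt b, rfl⟩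

theorem isCompact_fibre (b : B) : IsCompact (pp ⁻¹' {b}) := by
  apply Set.Finite.isCompact
  refine (Set.toFinite {XX.pt b, XX.iso b}).subset ?_
  rintro (a | a) h
  · have : a = b := h
    simp [this]
  · have : a = b := h
    simp [this]

/-! ### The product `XX × ZZ` is not normal -/

/-- Building a sequence with good entries. -/
theorem exists_seq (h : ℕ → Set B → Lam → Lam) : ∃ a : B, ∀ k, Good (h k (cyl k a)) (a k) := by
  classical
  have hex : ∀ (k : ℕ) (C : Set B), ∃ ξ : E, Good (h k C) ξ := by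
    intro k C
    obtain ⟨ξ, h1, h2⟩ := exists_good (h k C)
    exact ⟨⟨ξ, h1⟩, h2⟩
  choose g hg using hex
  let ext : (k : ℕ) → ((i : ℕ) → i < k → E) → B := fun k f i =>
    if hi : i < k then f i hi else b0 i
  let step : (k : ℕ) → ((i : ℕ) → i < k → E) → E := fun k f => g k (cyl k (ext k f))
  obtain ⟨a, ha⟩ : ∃ a : B, ∀ k, a k = step k (fun i _ => a i) := by
    refine ⟨WellFounded.fix (wellFounded_lt (α := ℕ)) step, fun k => ?_⟩
    conv_lhs => rw [WellFounded.fix_eq]
  refine ⟨a, fun k => ?_⟩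
  have h1 : cyl k (ext k (fun i _ => a i)) = cyl k a := by
    apply cyl_eq
    intro i hi
    simp only [ext, dif_pos hi]
  have h2 : a k = g k (cyl k a) := by
    rw [ha k]
    simp only [step]
    rw [h1]
  rw [h2]
  exact hg k _

theorem not_normal : ¬ NormalSpace (XX × ZZ) := by
  classical
  intro hN
  let GG : Set (XX × ZZ) := {p | ∃ a, p = (XX.iso a, ZZ.z a)}
  let HH : Set (XX × ZZ) := {p | ∃ a, p.1 = XX.pt a}
  have hGG : IsClosed GG := by
    rw [← isOpen_compl_iff, isOpen_prod_iff]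
    rintro (b | b) (c | ⟨j, e⟩) hne
    · -- `(pt b, z c)`
      by_cases hbc : c = b
      · subst hbc
        refine ⟨XX.bas 0 c, {w | w ≠ ZZ.z c → ∃ j x, w = ZZ.e j x}, XX.isOpen_bas _ _, ?_,
          XX.mem_bas_self _ _, fun h => absurd rfl h, ?_⟩
        · rw [ZZ.isOpen_iff]
          intro a _ j
          exact ⟨∅, fun x _ _ => ⟨j, x, rfl⟩⟩
        · rintro ⟨x, w⟩ ⟨hx, hw⟩ ⟨a, ha⟩
          simp only [Prod.mk.injEq] at ha
          obtain ⟨rfl, rfl⟩ := ha
          have h1 : a ≠ c := hx.2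
          obtain ⟨j, x, h2⟩ := hw (by simpa using h1)
          simp at h2
      · obtain ⟨n, hn⟩ := exists_notMem_cyl hbc
        refine ⟨XX.bas n b, {w | w ≠ ZZ.z c → ∃ j x, w = ZZ.e j x}, XX.isOpen_bas _ _, ?_,
          XX.mem_bas_self _ _, fun h => absurd rfl h, ?_⟩
        · rw [ZZ.isOpen_iff]
          intro a _ j
          exact ⟨∅, fun x _ _ => ⟨j, x, rfl⟩⟩
        · rintro ⟨x, w⟩ ⟨hx, hw⟩ ⟨a, ha⟩
          simp only [Prod.mk.injEq] at ha
          obtain ⟨rfl, rfl⟩ := ha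
          have h1 : a ∈ cyl n b := hx.1
          by_cases hac : a = c
          · subst hac; exact hn h1
          · obtain ⟨j, x, h2⟩ := hw (by simpa using hac)
            simp at h2
    · refine ⟨univ, {ZZ.e j e}, isOpen_univ, ?_, trivial, rfl, ?_⟩
      · rw [ZZ.isOpen_iff]
        intro a ha
        simp at ha
      · rintro ⟨x, w⟩ ⟨_, hw⟩ ⟨a, ha⟩
        simp only [Prod.mk.injEq] at ha
        obtain ⟨rfl, rfl⟩ := ha
        simp at hw
    · -- `(iso b, z c)`
      have hbc : b ≠ c := by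
        rintro rfl
        exact hne ⟨b, rfl⟩
      refine ⟨{XX.iso b}, {w | w ≠ ZZ.z c → ∃ j x, w = ZZ.e j x}, XX.isOpen_iso b, ?_,
        rfl, fun h => absurd rfl h, ?_⟩
      · rw [ZZ.isOpen_iff]
        intro a _ j
        exact ⟨∅, fun x _ _ => ⟨j, x, rfl⟩⟩
      · rintro ⟨x, w⟩ ⟨hx, hw⟩ ⟨a, ha⟩
        simp only [Prod.mk.injEq] at ha
        obtain ⟨rfl, rfl⟩ := ha
        simp only [mem_singleton_iff, XX.iso.injEq] at hx
        subst hx
        obtain ⟨j, x, h2⟩ := hw (by simpa using hbc)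
        simp at h2
    · refine ⟨univ, {ZZ.e j e}, isOpen_univ, ?_, trivial, rfl, ?_⟩
      · rw [ZZ.isOpen_iff]
        intro a ha
        simp at ha
      · rintro ⟨x, w⟩ ⟨_, hw⟩ ⟨a, ha⟩
        simp only [Prod.mk.injEq] at ha
        obtain ⟨rfl, rfl⟩ := ha
        simp at hw
  have hHH : IsClosed HH := by
    rw [← isOpen_compl_iff, isOpen_prod_iff]
    rintro (b | b) w hne
    · exact absurd ⟨b, rfl⟩ hne
    · refine ⟨{XX.iso b}, univ, XX.isOpen_iso b, isOpen_univ, rfl, trivial, ?_⟩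
      rintro ⟨x, w⟩ ⟨hx, _⟩ ⟨a, ha⟩
      simp only [mem_singleton_iff] at hx
      simp only at ha
      rw [hx] at ha
      simp at ha
  have hdis : Disjoint GG HH := by
    rw [disjoint_left]
    rintro p ⟨a, rfl⟩ ⟨b, hb⟩
    simp at hb
  obtain ⟨U, V, hU, hV, hGU, hHV, hUV⟩ := hN.normal GG HH hGG hHH hdis
  -- extract the numbers and the finite sets
  have h1 : ∀ a : B, ∀ j, ∃ F : Finset (Co j), ∀ x : Edge j, x.Near a F →
      (XX.iso a, ZZ.e j x) ∈ U := by
    intro a j
    obtain ⟨S, T, _, hT, haS, haT, hST⟩ := isOpen_prod_iff.1 hU (XX.iso a) (ZZ.z a)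
      (hGU ⟨a, rfl⟩)
    obtain ⟨F, hF⟩ := hT a haT j
    exact ⟨F, fun x hx => hST ⟨haS, hF x hx⟩⟩
  have h2 : ∀ a : B, ∃ m, ∀ j, ∃ F : Finset (Co j), ∀ b ∈ cyl m a, b ≠ a →
      ∀ x : Edge j, x.Near a F → (XX.iso b, ZZ.e j x) ∈ V := by
    intro a
    obtain ⟨S, T, hS, hT, haS, haT, hST⟩ := isOpen_prod_iff.1 hV (XX.pt a) (ZZ.z a)
      (hHV ⟨a, rfl⟩)
    obtain ⟨m, hm⟩ := hS a haS
    refine ⟨m, fun j => ?_⟩
    obtain ⟨F, hF⟩ := hT a haT j
    exact ⟨F, fun b hb hne x hx => hST ⟨(hm b hb).2 hne, hF x hx⟩⟩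
  choose F1 hF1 using h1
  choose m hm using h2
  choose F2 hF2 using hm
  have hsep : ∀ (j : ℕ) (a a' : B), a ≠ a' → a' ∈ cyl (m a) a →
      ∃ c ∈ F1 a j ∪ F2 a j, c ∈ F1 a' j ∪ F2 a' j ∧ c.1 a ≠ c.1 a' := by
    intro j a a' hne ha'
    by_contra hc
    push Not at hc
    let x : Edge j := ⟨a, a', F1 a j ∪ F2 a j, F1 a' j ∪ F2 a' j, hne, hc⟩
    have h3 : (XX.iso a', ZZ.e j x) ∈ V :=
      hF2 a j a' ha' hne.symm x (Or.inl ⟨rfl, Finset.subset_union_right⟩)
    have h4 : (XX.iso a', ZZ.e j x) ∈ U :=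
      hF1 a' j x (Or.inr ⟨rfl, Finset.subset_union_left⟩)
    exact (disjoint_left.1 hUV) h4 h3
  have hcore : ∀ (k : ℕ) (C : Set B), ∃ h : Lam → Lam, ∀ a, m a = k → cyl k a = C →
      ¬ Good h (a k) := by
    intro k C
    obtain ⟨h, hh⟩ := core k {a | m a = k ∧ cyl k a = C} (fun a => F1 a k ∪ F2 a k) (by
      rintro a ⟨ha1, ha2⟩ a' ⟨ha1', ha2'⟩ hne
      apply hsep k a a' hne
      rw [ha1, ha2, ← ha2']
      exact mem_cyl_self _ _)
    exact ⟨h, fun a ha1 ha2 => hh a ⟨ha1, ha2⟩⟩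
  choose h hh using hcore
  obtain ⟨a, ha⟩ := exists_seq h
  exact hh (m a) (cyl (m a) a) a rfl rfl (ha (m a))

/-- The main theorem. -/
theorem main : ∃ (X Y Z M : Type) (_ : TopologicalSpace X) (_ : TopologicalSpace Y)
    (_ : TopologicalSpace Z) (_ : TopologicalSpace M) (p : X → M) (f : Y → Z),
    T35Space X ∧ T35Space Y ∧ T35Space Z ∧
    ParacompactSpace X ∧
    MetrizableSpace M ∧ IsCompletelyMetrizableSpace M ∧
    Continuous p ∧ IsClosedMap p ∧ Function.Surjective p ∧ (∀ m, IsCompact (p ⁻¹' {m})) ∧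
    NormalSpace (X × Y) ∧
    Continuous f ∧ IsClosedMap f ∧ Function.Surjective f ∧
    ¬ NormalSpace (X × Z) :=
  ⟨XX, YY, ZZ, B, inferInstance, inferInstance, inferInstance, topB, pp, ff,
    inferInstance, inferInstance, inferInstance, inferInstance,
    metrizableB, completeB, continuous_pp, isClosedMap_pp, surjective_pp, isCompact_fibre,
    inferInstance, continuous_ff, isClosedMap_ff, surjective_ff, not_normal⟩

end Pool.Agent.H732.RS
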