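import Mathlib

/-!
# A long well ordered type

`Lam` is a well ordered type of cardinality `𝔠⁺`; every initial segment has cardinality at most
the continuum, and every family of at most continuum many elements is bounded.  `E` is the set of
those elements `ξ` such that every sequence of elements below `ξ` is bounded below `ξ`.
-/

set_option autoImplicit false

namespace Pool.Agent.H732.RS

open Cardinal Set

/-- A well ordered type of cardinality `𝔠⁺`. -/
abbrev Lam : Type := (Order.succ Cardinal.continuum.{0}).ord.ToType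

theorem mk_Iio_le (ξ : Lam) : #(Iio ξ) ≤ 𝔠 := by
  have h : #(Iio ξ) < Order.succ Cardinal.continuum.{0} := by
    simpa using mk_Iio_lt ξ (by simp)
  exact Order.lt_succ_iff.1 h

theorem mk_Iic_le (ξ : Lam) : #(Iic ξ) ≤ 𝔠 := by
  have h1 : (Iic ξ) = Iio ξ ∪ {ξ} := by
    ext x; simp [le_iff_lt_or_eq]
  rw [h1]
  refine (mk_union_le _ _).trans ?_
  have h2 : #({ξ} : Set Lam) ≤ 𝔠 := by
    rw [mk_singleton]
    exact (one_le_aleph0).trans aleph0_le_continuum
  exact add_le_of_le aleph0_le_continuum (mk_Iio_le ξ) h2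

theorem lt_mk_Lam : 𝔠 < #Lam := by
  rw [mk_ord_toType]
  exact Order.lt_succ _

theorem bdd {ι : Type} (hι : #ι ≤ 𝔠) (g : ι → Lam) : ∃ β, ∀ i, g i < β := by
  by_contra h
  push Not at h
  have h1 : (univ : Set Lam) ⊆ ⋃ i, Iic (g i) := by
    intro β _
    obtain ⟨i, hi⟩ := h β
    exact mem_iUnion.2 ⟨i, hi⟩
  have h2 : #Lam ≤ 𝔠 := by
    calc #Lam = #(univ : Set Lam) := mk_univ.symm
      _ ≤ #(⋃ i, Iic (g i)) := mk_le_mk_of_subset h1
      _ ≤ #ι * ⨆ i, #(Iic (g i)) := mk_iUnion_le _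
      _ ≤ 𝔠 * 𝔠 := by
          refine mul_le_mul' hι ?_
          rcases isEmpty_or_nonempty ι with hE | hE
          · rw [ciSup_of_empty]; exact bot_le
          · exact ciSup_le fun i => mk_Iic_le _
      _ = 𝔠 := continuum_mul_self
  exact absurd h2 (not_le.2 lt_mk_Lam)

/-- The elements `ξ` such that every sequence below `ξ` is bounded below `ξ`. -/
def E : Set Lam := {ξ | ∀ b : ℕ → Lam, (∀ i, b i < ξ) → ∃ η < ξ, ∀ i, b i ≤ η}

/-- `ξ` has predecessors and is closed under `h`. -/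
def Good (h : Lam → Lam) (ξ : Lam) : Prop := (∃ η, η < ξ) ∧ ∀ η < ξ, h η < ξ

/-- There is an element with uncountably many predecessors. -/
theorem exists_uncountable : ∃ α : Lam, ¬ (Iio α).Countable := by
  by_contra h
  push Not at h
  -- take a bound of a well ordered chain of length ω₁; use cardinalities instead
  have hunc : ∀ s : Set Lam, s.Countable → ∃ β, ∀ x ∈ s, x < β := by
    intro s hs
    have := bdd (ι := s) ((le_aleph0_iff_set_countable.2 hs).trans aleph0_le_continuum)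
      (fun x => x.1)
    obtain ⟨β, hβ⟩ := this
    exact ⟨β, fun x hx => hβ ⟨x, hx⟩⟩
  -- a subset of size `𝔠` is bounded, hence some initial segment has size at least `𝔠`
  have hle : 𝔠 ≤ #Lam := lt_mk_Lam.le
  obtain ⟨s, hs⟩ := le_mk_iff_exists_set.1 hle
  obtain ⟨β, hβ⟩ := bdd (ι := s) hs.le (fun x => x.1)
  have h1 : s ⊆ Iio β := fun x hx => hβ ⟨x, hx⟩
  have h2 := (h β).mono h1
  have h3 := le_aleph0_iff_set_countable.2 h2
  rw [hs] at h3
  exact absurd h3 (not_le.2 aleph0_lt_continuum)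

/-- the least element with uncountably many predecessors -/
noncomputable def om : Lam := WellFounded.min (wellFounded_lt (α := Lam))
  {α | ¬ (Iio α).Countable} exists_uncountable

theorem om_unc : ¬ (Iio om).Countable :=
  WellFounded.min_mem (wellFounded_lt (α := Lam)) {α | ¬ (Iio α).Countable} exists_uncountable

theorem om_min {β : Lam} (h : β < om) : (Iio β).Countable := by
  by_contra hc
  exact WellFounded.not_lt_min (wellFounded_lt (α := Lam)) {α | ¬ (Iio α).Countable} hc h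

theorem om_bdd (b : ℕ → Lam) (hb : ∀ i, b i < om) : ∃ β < om, ∀ i, b i < β := by
  by_contra h
  push Not at h
  apply om_unc
  have h1 : Iio om ⊆ ⋃ i, Iic (b i) := by
    intro β hβ
    obtain ⟨i, hi⟩ := h β hβ
    exact mem_iUnion.2 ⟨i, hi⟩
  refine Countable.mono h1 (countable_iUnion fun i => ?_)
  have h2 : (Iic (b i)) = insert (b i) (Iio (b i)) := by
    ext x; simp [le_iff_lt_or_eq, or_comm]
  rw [h2]
  exact (om_min (hb i)).insert _

/-- Every function has closure points in `E`. -/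
theorem exists_good (h : Lam → Lam) : ∃ ξ ∈ E, Good h ξ := by
  -- `H ζ` bounds `h` on `Iic ζ` and `ζ`
  have hH : ∀ ζ : Lam, ∃ β, ζ < β ∧ ∀ η ≤ ζ, h η < β := by
    intro ζ
    obtain ⟨β, hβ⟩ := bdd (ι := Iic ζ) (mk_Iic_le ζ) (fun x => h x.1)
    obtain ⟨β', hβ'⟩ := bdd (ι := Unit) (by
      rw [mk_unit]; exact (one_le_aleph0).trans aleph0_le_continuum) (fun _ => ζ)
    exact ⟨max β β', lt_max_of_lt_right (hβ' ()), fun η hη =>
      lt_max_of_lt_left (hβ ⟨η, hη⟩)⟩
  choose H hH1 hH2 using hH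
  -- recursion
  have hrec : ∃ g : Lam → Lam, ∀ α, ∀ β < α, H (g β) < g α := by
    have hb : ∀ (α : Lam) (f : (β : Lam) → β < α → Lam), ∃ γ, ∀ (β : Lam) (hβ : β < α),
        H (f β hβ) < γ := by
      intro α f
      obtain ⟨γ, hγ⟩ := bdd (ι := Iio α) (mk_Iio_le α) (fun x => H (f x.1 x.2))
      exact ⟨γ, fun β hβ => hγ ⟨β, hβ⟩⟩
    choose G hG using hb
    refine ⟨WellFounded.fix (wellFounded_lt (α := Lam)) G, fun α β hβ => ?_⟩
    conv_rhs => rw [WellFounded.fix_eq]
    exact hG α (fun y _ => WellFounded.fix (wellFounded_lt (α := Lam)) G y) β hβ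
  obtain ⟨g, hg⟩ := hrec
  have hmono : ∀ {β α : Lam}, β < α → g β < g α := fun {β α} hβ => (hH1 _).trans (hg α β hβ)
  have hmono' : ∀ {β α : Lam}, β ≤ α → g β ≤ g α := fun {β α} hβ => by
    rcases hβ.eq_or_lt with h | h
    · rw [h]
    · exact (hmono h).le
  have hne : {u : Lam | ∀ β < om, g β < u}.Nonempty := by
    exact ⟨g om, fun β hβ => hmono hβ⟩
  obtain ⟨ξ, hξ, hmin⟩ : ∃ ξ ∈ {u : Lam | ∀ β < om, g β < u},
      ∀ η < ξ, ¬ η ∈ {u : Lam | ∀ β < om, g β < u} :=
    ⟨WellFounded.min (wellFounded_lt (α := Lam)) _ hne, WellFounded.min_mem _ _ hne,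
      fun η hη hη' => WellFounded.not_lt_min _ _ hη' hη⟩
  have hcof : ∀ η < ξ, ∃ β < om, η ≤ g β := by
    intro η hη
    have := hmin η hη
    simp only [mem_ofPred_eq, not_forall, not_lt] at this
    obtain ⟨β, hβ, h1⟩ := this
    exact ⟨β, hβ, h1⟩
  have hlim : ∀ β < om, ∃ β' < om, β < β' := by
    intro β hβ
    obtain ⟨β', hβ', h1⟩ := om_bdd (fun _ => β) (fun _ => hβ)
    exact ⟨β', hβ', h1 0⟩
  refine ⟨ξ, ?_, ?_, ?_⟩
  · intro b hb
    choose β hβ1 hβ2 using fun i => hcof (b i) (hb i)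
    obtain ⟨β', hβ', h1⟩ := om_bdd β hβ1
    exact ⟨g β', hξ _ hβ', fun i => (hβ2 i).trans (hmono' (h1 i).le)⟩
  · obtain ⟨β, hβ⟩ : ∃ β, β < om := by
      by_contra hc
      push Not at hc
      apply om_unc
      have : Iio om = ∅ := by
        ext x; simp [hc x]
      rw [this]; exact countable_empty
    exact ⟨g β, hξ β hβ⟩
  · intro η hη
    obtain ⟨β, hβ, h1⟩ := hcof η hη
    obtain ⟨β', hβ', h2⟩ := hlim β hβ
    exact (hH2 (g β) η h1).trans ((hg β' β h2).trans (hξ β' hβ'))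

end Pool.Agent.H732.RS
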