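import Pool.Agent.H732.RS.Spaces

/-!
# The product `XX × YY` is normal
-/

set_option autoImplicit false

namespace Pool.Agent.H732.RS

open Cardinal Set Topology

/-- The separating selectors. -/
theorem selectorY (j : ℕ) (O : B → Bool → Finset (Co j) → Set XX)
    (hopen : ∀ d t F, IsOpen (O d t F)) (hcov : ∀ d u, ∃ t F, u ∈ O d t F)
    (hmono : ∀ d t F F', F ⊆ F' → O d t F ⊆ O d t F') :
    ∃ S : B → XX → Bool × Finset (Co j), (∀ d, IsLocallyConstant (S d)) ∧
      (∀ d u, u ∈ O d (S d u).1 (S d u).2) ∧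
      (∀ d d' u, (S d u).1 ≠ (S d' u).1 →
        ∃ c ∈ (S d u).2, c ∈ (S d' u).2 ∧ c.1 d ≠ c.1 d') := by
  classical
  -- data: `(t, t', F, e)`
  let goodD : B → Set B → Bool × Bool × Finset (Co j) × B → Prop := fun d C D =>
    (∀ b ∈ C, XX.pt b ∈ O d D.1 D.2.2.1) ∧
    (∀ b ∈ C, b ≠ D.2.2.2 → XX.iso b ∈ O d D.1 D.2.2.1) ∧
    XX.iso D.2.2.2 ∈ O d D.2.1 D.2.2.1
  let good : B → Set B → Prop := fun d C => ∃ D, goodD d C D
  have hex : ∀ d b : B, ∃ n, good d (cyl n b) := by
    intro d b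
    obtain ⟨t, F, hi⟩ := hcov d (XX.pt b)
    obtain ⟨t', F', hi'⟩ := hcov d (XX.iso b)
    obtain ⟨n, hn⟩ := (hopen d t F) b hi
    refine ⟨n, (t, t', F ∪ F', b), fun c hc => ?_, fun c hc hne => ?_, ?_⟩
    · exact hmono d t F _ Finset.subset_union_left (hn c hc).1
    · exact hmono d t F _ Finset.subset_union_left ((hn c hc).2 hne)
    · exact hmono d t' F' _ Finset.subset_union_right hi'
  let ξ0 : E := ⟨(exists_good id).choose, (exists_good id).choose_spec.1⟩
  have hch : ∀ (d : B) (C : Set B), ∃ D, good d C → goodD d C D := by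
    intro d C
    by_cases h : good d C
    · exact ⟨h.choose, fun _ => h.choose_spec⟩
    · exact ⟨(true, true, ∅, fun _ => ξ0), fun h' => absurd h' h⟩
  choose dat hdat using hch
  let nn : B → B → ℕ := fun d b => Nat.find (hex d b)
  have hgood : ∀ d b, good d (cyl (nn d b) b) := fun d b => Nat.find_spec (hex d b)
  have hnn : ∀ d b, goodD d (cyl (nn d b) b) (dat d (cyl (nn d b) b)) := fun d b =>
    hdat _ _ (hgood d b)
  have hmin : ∀ d b m, m < nn d b → ¬ good d (cyl m b) := fun d b m hm => Nat.find_min (hex d b) hm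
  have hloc : ∀ d b, ∀ b' ∈ cyl (nn d b) b, nn d b' = nn d b := by
    intro d b b' hb'
    apply le_antisymm
    · apply Nat.find_min'
      rw [cyl_eq hb']
      exact hgood d b
    · by_contra hlt
      push Not at hlt
      have h1 : cyl (nn d b') b' = cyl (nn d b') b := cyl_eq (cyl_mono hlt.le b hb')
      have h2 := hgood d b'
      rw [h1] at h2
      exact hmin d b _ hlt h2
  -- the number `mm`
  let mm : B → Set B → ℕ := fun d C =>
    if h : ∃ i, (d j : Lam) ≤ (dat d C).2.2.2 i then Nat.find h + 1 else 0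
  -- coordinates
  let Γ : Set B → B → V := fun C d =>
    Sum.inl (if good d C then some ((dat d C).1, (dat d C).2.1, mm d C) else none)
  let cc : Set B → ℕ → Set B → B → V := fun C k τ d =>
    if good d C ∧ mm d C = k ∧ cyl k (dat d C).2.2.2 = τ then Sum.inr (dat d C).2.2.2
      else Sum.inl none
  have hΓ : ∀ C, Reg j (Γ C) := fun C => reg_inl j _ fun d => ⟨_, rfl⟩
  have hcc : ∀ C k τ, Reg j (cc C k τ) := by
    intro C k τ
    by_cases hτ : ∃ b0 : B, cyl k b0 = τ
    · obtain ⟨b0, hb0⟩ := hτ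
      obtain ⟨β, hβ⟩ := bdd (ι := ℕ) (by rw [mk_nat]; exact aleph0_le_continuum)
        (fun i => (b0 i : Lam))
      refine ⟨fun _ => β, fun a ha => ?_⟩
      obtain ⟨⟨η0, hη0⟩, hcl⟩ := ha
      by_cases hc : good a C ∧ mm a C = k ∧ cyl k (dat a C).2.2.2 = τ
      · simp only [cc, if_pos hc]
        obtain ⟨_, hm, hcy⟩ := hc
        by_cases hi : ∃ i, (a j : Lam) ≤ (dat a C).2.2.2 i
        · exfalso
          simp only [mm, dif_pos hi] at hm
          have h1 := Nat.find_spec hi
          have h2 : (dat a C).2.2.2 ∈ cyl k b0 := by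
            rw [hb0, ← hcy]; exact mem_cyl_self _ _
          have h3 := h2 (Nat.find hi) (by omega)
          rw [h3] at h1
          exact absurd ((hβ _).trans (hcl η0 hη0)) (not_lt.2 h1)
        · push Not at hi
          obtain ⟨η, hη, hη2⟩ := (a j).2 (fun i => ((dat a C).2.2.2 i : Lam)) hi
          exact ⟨η, hη, hη2⟩
      · simp only [cc, if_neg hc]
        exact ⟨η0, hη0, trivial⟩
    · refine reg_inl j _ fun d => ⟨none, ?_⟩
      simp only [cc]
      rw [if_neg]
      rintro ⟨_, _, h⟩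
      exact hτ ⟨_, h⟩
  let Γ' : Set B → Co j := fun C => ⟨Γ C, hΓ C⟩
  let cc' : Set B → ℕ → Set B → Co j := fun C k τ => ⟨cc C k τ, hcc C k τ⟩
  let nd : B → B → Set B := fun d b => cyl (nn d b) b
  let FF : B → B → Finset (Co j) := fun d b =>
    ((Finset.range (nn d b + 1)).image fun k => Γ' (cyl k b)) ∪
      insert (cc' (nd d b) (mm d (nd d b)) (cyl (mm d (nd d b)) b)) (dat d (nd d b)).2.2.1
  have hFF1 : ∀ d b k, k ≤ nn d b → Γ' (cyl k b) ∈ FF d b := by
    intro d b k hk
    simp only [FF, Finset.mem_union, Finset.mem_image, Finset.mem_range]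
    exact Or.inl ⟨k, by omega, rfl⟩
  have hFF2 : ∀ d b, cc' (nd d b) (mm d (nd d b)) (cyl (mm d (nd d b)) b) ∈ FF d b := by
    intro d b
    exact Finset.mem_union_right _ (Finset.mem_insert_self _ _)
  have hFF3 : ∀ d b, (dat d (nd d b)).2.2.1 ⊆ FF d b := by
    intro d b c hc
    simp only [FF, Finset.mem_union, Finset.mem_insert]
    exact Or.inr (Or.inr hc)
  have hndloc : ∀ d b, ∀ b' ∈ cyl (nn d b) b, nd d b' = nd d b := by
    intro d b b' hb'
    simp only [nd]
    rw [hloc d b b' hb', cyl_eq hb']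
  have hFFloc : ∀ d b, ∃ n, nn d b ≤ n ∧ ∀ b' ∈ cyl n b, FF d b' = FF d b := by
    intro d b
    refine ⟨max (nn d b) (mm d (nd d b)), le_max_left _ _, fun b' hb' => ?_⟩
    have h1 : b' ∈ cyl (nn d b) b := cyl_mono (le_max_left _ _) b hb'
    have h2 : b' ∈ cyl (mm d (nd d b)) b := cyl_mono (le_max_right _ _) b hb'
    simp only [FF]
    rw [hndloc d b b' h1, hloc d b b' h1, cyl_eq h2]
    congr 1
    apply Finset.image_congr
    intro k hk
    simp only [Finset.coe_range, mem_Iio] at hk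
    have h3 : cyl k b' = cyl k b := cyl_eq (cyl_mono (by omega) b h1)
    simp only [h3]
  let S : B → XX → Bool × Finset (Co j) := fun d x => match x with
    | XX.pt b => ((dat d (nd d b)).1, FF d b)
    | XX.iso b => (if b = (dat d (nd d b)).2.2.2 then (dat d (nd d b)).2.1
        else (dat d (nd d b)).1, FF d b)
  refine ⟨S, fun d => XX.locConst _ fun a => ?_, ?_, ?_⟩
  · obtain ⟨n, hn1, hn2⟩ := hFFloc d a
    by_cases ha : (dat d (nd d a)).2.2.2 = a
    · refine ⟨n, fun b hb => ?_⟩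
      simp only [S]
      rw [hndloc d a b (cyl_mono hn1 a hb), hn2 b hb]
      refine ⟨rfl, fun hne => ?_⟩
      rw [if_neg (by rw [ha]; exact hne)]
    · obtain ⟨m, hm⟩ := exists_notMem_cyl ha
      refine ⟨max n m, fun b hb => ?_⟩
      have hb1 : b ∈ cyl n a := cyl_mono (le_max_left _ _) a hb
      simp only [S]
      rw [hndloc d a b (cyl_mono hn1 a hb1), hn2 b hb1]
      refine ⟨rfl, fun _ => ?_⟩
      rw [if_neg]
      rintro h
      rw [← h] at hm
      exact hm (cyl_mono (le_max_right _ _) a hb)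
  · rintro d (b | b)
    · exact hmono d _ _ _ (hFF3 d b) ((hnn d b).1 b (mem_cyl_self _ _))
    · simp only [S]
      split_ifs with h
      · have h1 := (hnn d b).2.2
        refine hmono d _ _ _ (hFF3 d b) ?_
        change XX.iso (dat d (nd d b)).2.2.2 ∈ O d (dat d (nd d b)).2.1 (dat d (nd d b)).2.2.1 at h1
        rw [← h] at h1
        exact h1
      · exact hmono d _ _ _ (hFF3 d b) ((hnn d b).2.1 b (mem_cyl_self _ _) h)
  · -- separation
    -- first the reduction to equal `nn`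
    have key : ∀ d d' b, ¬ (∃ c ∈ FF d b, c ∈ FF d' b ∧ c.1 d ≠ c.1 d') → nn d b = nn d' b := by
      have key0 : ∀ d d' b, nn d b < nn d' b →
          (∃ c ∈ FF d b, c ∈ FF d' b ∧ c.1 d ≠ c.1 d') := by
        intro d d' b hlt
        refine ⟨Γ' (cyl (nn d b) b), hFF1 d b _ le_rfl, hFF1 d' b _ hlt.le, ?_⟩
        simp only [Γ', Γ]
        rw [if_pos (hgood d b), if_neg (hmin d' b _ hlt)]
        simp
      intro d d' b hno
      by_contra hne
      rcases lt_or_gt_of_ne hne with hlt | hlt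
      · exact hno (key0 d d' b hlt)
      · obtain ⟨c, h1, h2, h3⟩ := key0 d' d b hlt
        exact hno ⟨c, h2, h1, h3.symm⟩
    intro d d' u hu
    by_contra hno
    -- the point of `B`
    obtain ⟨b, hb1, hb2⟩ : ∃ b, (∀ d, (S d u).2 = FF d b) ∧ (u = XX.pt b ∨ u = XX.iso b) := by
      rcases u with b | b
      · exact ⟨b, fun _ => rfl, Or.inl rfl⟩
      · exact ⟨b, fun _ => rfl, Or.inr rfl⟩
    rw [hb1, hb1] at hno
    have hn := key d d' b hno
    have hnd : nd d b = nd d' b := by simp only [nd, hn]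
    -- the coordinate `Γ`
    have hΓeq : Γ (nd d b) d = Γ (nd d b) d' := by
      by_contra hne
      exact hno ⟨Γ' (nd d b), hFF1 d b _ le_rfl, by
        have := hFF1 d' b _ le_rfl
        change Γ' (nd d' b) ∈ _ at this
        rwa [← hnd] at this, hne⟩
    have hg1 : good d (nd d b) := hgood d b
    have hg2 : good d' (nd d b) := by rw [hnd]; exact hgood d' b
    simp only [Γ] at hΓeq
    rw [if_pos hg1, if_pos hg2] at hΓeq
    simp only [Sum.inl.injEq, Option.some.injEq, Prod.mk.injEq] at hΓeq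
    obtain ⟨ht, ht', hm⟩ := hΓeq
    -- the coordinate `cc`
    have hcceq : cc (nd d b) (mm d (nd d b)) (cyl (mm d (nd d b)) b) d =
        cc (nd d b) (mm d (nd d b)) (cyl (mm d (nd d b)) b) d' := by
      by_contra hne
      refine hno ⟨cc' (nd d b) (mm d (nd d b)) (cyl (mm d (nd d b)) b), hFF2 d b, ?_, hne⟩
      have := hFF2 d' b
      rwa [← hnd, ← hm] at this
    rcases hb2 with rfl | rfl
    · apply hu
      simp only [S]
      rw [← hnd]; exact ht
    · -- at least one of the exceptional points is `b`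
      have hor : b = (dat d (nd d b)).2.2.2 ∨ b = (dat d' (nd d b)).2.2.2 := by
        by_contra hc
        push Not at hc
        apply hu
        simp only [S]
        rw [← hnd, if_neg hc.1, if_neg hc.2]; exact ht
      have heq : (dat d (nd d b)).2.2.2 = (dat d' (nd d b)).2.2.2 := by
        rcases hor with h | h
        · have h1 : cc (nd d b) (mm d (nd d b)) (cyl (mm d (nd d b)) b) d =
              Sum.inr (dat d (nd d b)).2.2.2 := by
            simp only [cc]
            rw [if_pos]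
            refine ⟨hg1, ?_, ?_⟩
            · trivial
            · rw [← h]
          rw [hcceq] at h1
          simp only [cc] at h1
          split_ifs at h1 with h2
          simpa using h1.symm
        · have h1 : cc (nd d b) (mm d (nd d b)) (cyl (mm d (nd d b)) b) d' =
              Sum.inr (dat d' (nd d b)).2.2.2 := by
            simp only [cc]
            rw [if_pos]
            exact ⟨hg2, hm.symm, by rw [← h]⟩
          rw [← hcceq] at h1
          simp only [cc] at h1
          split_ifs at h1 with h2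
          simpa using h1
      apply hu
      simp only [S]
      rw [← hnd, heq, ht, ht']

/-- Separation by clopen sets in the product. -/
theorem sepXY {G H : Set (XX × YY)} (hG : IsClosed G) (hH : IsClosed H) (hd : Disjoint G H) :
    ∃ W : Set (XX × YY), IsClopen W ∧ G ⊆ W ∧ Disjoint W H := by
  classical
  -- the open sets
  let O : (j : ℕ) → B → Bool → Finset (Co j) → Set XX := fun j d t F =>
    ⋃₀ {U : Set XX | IsOpen U ∧ Disjoint (U ×ˢ YY.bas j d F) (if t then H else G)}
  have hS : ∀ j, ∃ S : B → XX → Bool × Finset (Co j), (∀ d, IsLocallyConstant (S d)) ∧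
      (∀ d u, u ∈ O j d (S d u).1 (S d u).2) ∧
      (∀ d d' u, (S d u).1 ≠ (S d' u).1 →
        ∃ c ∈ (S d u).2, c ∈ (S d' u).2 ∧ c.1 d ≠ c.1 d') := by
    intro j
    apply selectorY j (O j)
    · intro d t F
      exact isOpen_sUnion fun U hU => hU.1
    · intro d u
      have h1 : ∀ K : Set (XX × YY), IsClosed K → (u, YY.y j d) ∉ K →
          ∃ (U : Set XX) (F : Finset (Co j)), IsOpen U ∧ u ∈ U ∧
            Disjoint (U ×ˢ YY.bas j d F) K := by
        intro K hK hu
        obtain ⟨U, W, hU, hW, huU, hyW, hUW⟩ := isOpen_prod_iff.1 hK.isOpen_compl u _ hu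
        obtain ⟨F, hF⟩ := YY.bas_subset hW hyW
        refine ⟨U, F, hU, huU, ?_⟩
        rw [disjoint_left]
        rintro ⟨x, y⟩ ⟨hx, hy⟩ hK'
        exact hUW ⟨hx, hF hy⟩ hK'
      by_cases hu : (u, YY.y j d) ∈ H
      · have hu' : (u, YY.y j d) ∉ G := fun h => (disjoint_left.1 hd) h hu
        obtain ⟨U, F, hU, huU, hdis⟩ := h1 G hG hu'
        exact ⟨false, F, U, ⟨hU, by simpa using hdis⟩, huU⟩
      · obtain ⟨U, F, hU, huU, hdis⟩ := h1 H hH hu
        exact ⟨true, F, U, ⟨hU, by simpa using hdis⟩, huU⟩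
    · intro d t F F' hFF'
      rintro x ⟨U, ⟨hU, hdis⟩, hxU⟩
      refine ⟨U, ⟨hU, ?_⟩, hxU⟩
      refine hdis.mono_left (prod_mono le_rfl ?_)
      rintro w (rfl | ⟨e, he, rfl⟩)
      · exact YY.mem_bas_self _ _ _
      · exact YY.e_mem_bas (he.mono hFF')
  choose S hS1 hS2 hS3 using hS
  -- pointwise consequence
  have hmiss : ∀ j d u y, y ∈ YY.bas j d (S j d u).2 → (u, y) ∈ G → (S j d u).1 = true := by
    intro j d u y hy hu
    by_contra hf
    have h0 : (S j d u).1 = false := by simpa using hf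
    have h1 := hS2 j d u
    rw [h0] at h1
    obtain ⟨U, ⟨_, hdis⟩, huU⟩ := h1
    exact (disjoint_left.1 hdis) (show (u, y) ∈ U ×ˢ _ from ⟨huU, hy⟩) (by simpa using hu)
  have hmiss' : ∀ j d u y, y ∈ YY.bas j d (S j d u).2 → (u, y) ∈ H → (S j d u).1 = false := by
    intro j d u y hy hu
    by_contra hf
    have h0 : (S j d u).1 = true := by simpa using hf
    have h1 := hS2 j d u
    rw [h0] at h1
    obtain ⟨U, ⟨_, hdis⟩, huU⟩ := h1
    exact (disjoint_left.1 hdis) (show (u, y) ∈ U ×ˢ _ from ⟨huU, hy⟩) (by simpa using hu)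
  -- the sets for edges
  have hV : ∀ (j : ℕ) (e : Edge j), ∃ Ve : Set XX, IsClopen Ve ∧
      {u | (u, YY.e j e) ∈ G} ⊆ Ve ∧ Disjoint Ve {u | (u, YY.e j e) ∈ H} := by
    intro j e
    have hc : Continuous fun u : XX => (u, YY.e j e) := by fun_prop
    refine XX.sep (hG.preimage hc) (hH.preimage hc) ?_
    rw [disjoint_left]
    intro u h1 h2
    exact (disjoint_left.1 hd) h1 h2
  choose Ve hVe1 hVe2 hVe3 using hV
  -- fibre sets
  let We : (j : ℕ) → Edge j → Set XX := fun j e =>
    {u | (∃ d, e.Near d (S j d u).2 ∧ (S j d u).1 = true) ∨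
      ((∀ d, ¬ e.Near d (S j d u).2) ∧ u ∈ Ve j e)}
  have hnear : ∀ {j : ℕ} {e : Edge j} {d : B} {F : Finset (Co j)}, e.Near d F →
      d = e.a ∨ d = e.a' := by
    rintro j e d F (⟨h, _⟩ | ⟨h, _⟩)
    · exact Or.inl h.symm
    · exact Or.inr h.symm
  have hWe : ∀ j e, IsClopen (We j e) := by
    intro j e
    -- locally constant membership
    have hloc : ∀ u, ∃ U : Set XX, IsOpen U ∧ u ∈ U ∧ ∀ u' ∈ U, (u' ∈ We j e ↔ u ∈ We j e) := by
      intro u
      obtain ⟨U1, hU1, huU1, h1⟩ := (IsLocallyConstant.iff_exists_open _).1 (hS1 j e.a) u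
      obtain ⟨U2, hU2, huU2, h2⟩ := (IsLocallyConstant.iff_exists_open _).1 (hS1 j e.a') u
      obtain ⟨U3, hU3, huU3, h3⟩ : ∃ U : Set XX, IsOpen U ∧ u ∈ U ∧
          ∀ u' ∈ U, (u' ∈ Ve j e ↔ u ∈ Ve j e) := by
        by_cases hu : u ∈ Ve j e
        · exact ⟨Ve j e, (hVe1 j e).2, hu, fun u' hu' => by simp [hu, hu']⟩
        · exact ⟨(Ve j e)ᶜ, (hVe1 j e).compl.2, hu, fun u' hu' => by
            have : u' ∉ Ve j e := hu'
            simp [hu, this]⟩
      refine ⟨U1 ∩ (U2 ∩ U3), hU1.inter (hU2.inter hU3), ⟨huU1, huU2, huU3⟩, ?_⟩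
      rintro u' ⟨hu1, hu2, hu3⟩
      have e1 := h1 u' hu1
      have e2 := h2 u' hu2
      have e3 := h3 u' hu3
      have ea : ∀ (d : B) (F : Finset (Co j)), e.Near d F → S j d u' = S j d u := by
        intro d F hd'
        rcases hnear hd' with rfl | rfl
        · exact e1
        · exact e2
      simp only [We, mem_ofPred_eq]
      constructor
      · rintro (⟨d, h4, h5⟩ | ⟨h4, h5⟩)
        · rw [ea d _ h4] at h4 h5
          exact Or.inl ⟨d, h4, h5⟩
        · refine Or.inr ⟨fun d h6 => ?_, e3.1 h5⟩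
          have := ea d _ h6
          rw [← this] at h6
          exact h4 d h6
      · rintro (⟨d, h4, h5⟩ | ⟨h4, h5⟩)
        · have := ea d _ h4
          rw [← this] at h4 h5
          exact Or.inl ⟨d, h4, h5⟩
        · refine Or.inr ⟨fun d h6 => ?_, e3.2 h5⟩
          rw [ea d _ h6] at h6
          exact h4 d h6
    constructor
    · rw [← isOpen_compl_iff, isOpen_iff_forall_mem_open]
      intro u hu
      obtain ⟨U, hU, huU, h⟩ := hloc u
      exact ⟨U, fun u' hu' h' => hu ((h u' hu').1 h'), hU, huU⟩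
    · rw [isOpen_iff_forall_mem_open]
      intro u hu
      obtain ⟨U, hU, huU, h⟩ := hloc u
      exact ⟨U, fun u' hu' => (h u' hu').2 hu, hU, huU⟩
  let W : Set (XX × YY) := {p | match p with
    | (u, YY.y j d) => (S j d u).1 = true
    | (u, YY.e j e) => u ∈ We j e}
  -- description of `We` near a point
  have hWnear : ∀ (j : ℕ) (e : Edge j) (d : B) (u : XX), e.Near d (S j d u).2 →
      (u ∈ We j e ↔ (S j d u).1 = true) := by
    intro j e d u hn
    constructor
    · rintro (⟨d', h1, h2⟩ | ⟨h1, _⟩)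
      · by_contra hne
        have hne' : (S j d u).1 ≠ (S j d' u).1 := by rw [h2]; exact hne
        obtain ⟨c, hc1, hc2, hc3⟩ := hS3 j d d' u hne'
        have hdd : d ≠ d' := by
          rintro rfl; exact hne' rfl
        exact hc3 (hn.common hdd h1 c hc1 hc2)
      · exact absurd hn (h1 d)
    · exact fun h => Or.inl ⟨d, hn, h⟩
  have hWloc : ∀ p : XX × YY, ∃ U : Set (XX × YY), IsOpen U ∧ p ∈ U ∧
      ∀ q ∈ U, (q ∈ W ↔ p ∈ W) := by
    rintro ⟨u, ⟨j, d⟩ | ⟨j, e⟩⟩
    · obtain ⟨U1, hU1, huU1, h1⟩ := (IsLocallyConstant.iff_exists_open _).1 (hS1 j d) u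
      refine ⟨U1 ×ˢ YY.bas j d (S j d u).2, hU1.prod (YY.isOpen_bas _ _ _),
        ⟨huU1, YY.mem_bas_self _ _ _⟩, ?_⟩
      rintro ⟨u', y⟩ ⟨hu', hy⟩
      have e1 : S j d u' = S j d u := h1 u' hu'
      rcases hy with rfl | ⟨e, he, rfl⟩
      · simp only [W, mem_ofPred_eq]
        rw [e1]
      · simp only [W, mem_ofPred_eq]
        rw [hWnear j e d u' (by rw [e1]; exact he), e1]
    · by_cases hu : u ∈ We j e
      · refine ⟨We j e ×ˢ {YY.e j e}, (hWe j e).2.prod (YY.isOpen_e j e), ⟨hu, rfl⟩, ?_⟩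
        rintro ⟨u', y⟩ ⟨hu', hy⟩
        rw [mem_singleton_iff] at hy
        simp only at hy hu'
        subst hy
        simp only [W, mem_ofPred_eq]
        simp [hu, hu']
      · refine ⟨(We j e)ᶜ ×ˢ {YY.e j e}, (hWe j e).compl.2.prod (YY.isOpen_e j e), ⟨hu, rfl⟩, ?_⟩
        rintro ⟨u', y⟩ ⟨hu', hy⟩
        rw [mem_singleton_iff] at hy
        simp only at hy hu'
        subst hy
        have : u' ∉ We j e := hu'
        simp only [W, mem_ofPred_eq]
        simp [hu, this]
  refine ⟨W, ⟨?_, ?_⟩, ?_, ?_⟩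
  · rw [← isOpen_compl_iff, isOpen_iff_forall_mem_open]
    intro u hu
    obtain ⟨U, hU, huU, h⟩ := hWloc u
    exact ⟨U, fun u' hu' h' => hu ((h u' hu').1 h'), hU, huU⟩
  · rw [isOpen_iff_forall_mem_open]
    intro u hu
    obtain ⟨U, hU, huU, h⟩ := hWloc u
    exact ⟨U, fun u' hu' => (h u' hu').2 hu, hU, huU⟩
  · rintro ⟨u, ⟨j, d⟩ | ⟨j, e⟩⟩ hu
    · simp only [W, mem_ofPred_eq]
      exact hmiss j d u _ (YY.mem_bas_self _ _ _) hu
    · simp only [W, mem_ofPred_eq]
      by_cases hn : ∃ d, e.Near d (S j d u).2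
      · obtain ⟨d, hn⟩ := hn
        rw [hWnear j e d u hn]
        exact hmiss j d u _ (YY.e_mem_bas hn) hu
      · push Not at hn
        exact Or.inr ⟨hn, hVe2 j e hu⟩
  · rw [disjoint_left]
    rintro ⟨u, ⟨j, d⟩ | ⟨j, e⟩⟩ hW hu
    · simp only [W, mem_ofPred_eq] at hW
      have := hmiss' j d u _ (YY.mem_bas_self _ _ _) hu
      rw [hW] at this
      exact absurd this (by simp)
    · simp only [W, mem_ofPred_eq] at hW
      by_cases hn : ∃ d, e.Near d (S j d u).2
      · obtain ⟨d, hn⟩ := hn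
        rw [hWnear j e d u hn] at hW
        have := hmiss' j d u _ (YY.e_mem_bas hn) hu
        rw [hW] at this
        exact absurd this (by simp)
      · rcases hW with ⟨d, h1, _⟩ | ⟨_, h2⟩
        · exact hn ⟨d, h1⟩
        · exact (disjoint_left.1 (hVe3 j e)) h2 hu

instance : NormalSpace (XX × YY) where
  normal := by
    intro s t hs ht hd
    obtain ⟨W, hW, h1, h2⟩ := sepXY hs ht hd
    exact ⟨W, Wᶜ, hW.2, hW.compl.2, h1, fun x hx hxW => (disjoint_left.1 h2) hxW hx,
      disjoint_compl_right⟩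

end Pool.Agent.H732.RS
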