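import Pool.Agent.H732.RS.Core

/-!
# The three spaces
-/

set_option autoImplicit false

namespace Pool.Agent.H732.RS

open Cardinal Set Topology

/-- The set of all sequences agreeing with `b` before `n`. -/
def cyl (n : ℕ) (b : B) : Set B := {b' | ∀ i < n, b' i = b i}

theorem mem_cyl {n : ℕ} {b b' : B} : b' ∈ cyl n b ↔ ∀ i < n, b' i = b i := Iff.rfl

theorem mem_cyl_self (n : ℕ) (b : B) : b ∈ cyl n b := fun _ _ => rfl

theorem cyl_eq {n : ℕ} {b b' : B} (h : b' ∈ cyl n b) : cyl n b' = cyl n b := by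
  ext x
  constructor
  · exact fun hx i hi => (hx i hi).trans (h i hi)
  · exact fun hx i hi => (hx i hi).trans (h i hi).symm

theorem cyl_mono {m n : ℕ} (h : m ≤ n) (b : B) : cyl n b ⊆ cyl m b :=
  fun _ hx i hi => hx i (hi.trans_le h)

theorem exists_notMem_cyl {a b : B} (h : a ≠ b) : ∃ n, a ∉ cyl n b := by
  by_contra hc
  push Not at hc
  exact h (funext fun i => hc (i + 1) i (Nat.lt_succ_self i))

/-! ### The space `XX` -/

/-- The Alexandroff duplicate of the Baire space: points `pt a` and isolated points `iso a`. -/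
inductive XX : Type
  | pt (a : B)
  | iso (a : B)

instance : TopologicalSpace XX where
  IsOpen s := ∀ a, XX.pt a ∈ s → ∃ n, ∀ b ∈ cyl n a, XX.pt b ∈ s ∧ (b ≠ a → XX.iso b ∈ s)
  isOpen_univ := fun _ _ => ⟨0, fun _ _ => ⟨trivial, fun _ => trivial⟩⟩
  isOpen_inter := by
    intro s t hs ht a ha
    obtain ⟨n, hn⟩ := hs a ha.1
    obtain ⟨m, hm⟩ := ht a ha.2
    refine ⟨max n m, fun b hb => ?_⟩
    have h1 := hn b (cyl_mono (le_max_left _ _) a hb)
    have h2 := hm b (cyl_mono (le_max_right _ _) a hb)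
    exact ⟨⟨h1.1, h2.1⟩, fun hne => ⟨h1.2 hne, h2.2 hne⟩⟩
  isOpen_sUnion := by
    intro S hS a ha
    obtain ⟨s, hs, has⟩ := ha
    obtain ⟨n, hn⟩ := hS s hs a has
    exact ⟨n, fun b hb => ⟨⟨s, hs, (hn b hb).1⟩, fun hne => ⟨s, hs, (hn b hb).2 hne⟩⟩⟩

theorem XX.isOpen_iff {s : Set XX} : IsOpen s ↔
    ∀ a, XX.pt a ∈ s → ∃ n, ∀ b ∈ cyl n a, XX.pt b ∈ s ∧ (b ≠ a → XX.iso b ∈ s) := Iff.rfl

theorem XX.isOpen_iso (a : B) : IsOpen ({XX.iso a} : Set XX) := by
  rw [XX.isOpen_iff]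
  intro b hb
  simp at hb

/-- Basic neighbourhoods of `pt a`. -/
def XX.bas (n : ℕ) (a : B) : Set XX := {x | match x with
  | XX.pt b => b ∈ cyl n a
  | XX.iso b => b ∈ cyl n a ∧ b ≠ a}

theorem XX.isOpen_bas (n : ℕ) (a : B) : IsOpen (XX.bas n a) := by
  rw [XX.isOpen_iff]
  intro b hb
  change b ∈ cyl n a at hb
  by_cases hba : b = a
  · subst hba
    exact ⟨n, fun c hc => ⟨hc, fun hne => ⟨hc, hne⟩⟩⟩
  · obtain ⟨m, hm⟩ := exists_notMem_cyl (Ne.symm hba)
    refine ⟨max n m, fun c hc => ?_⟩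
    have h1 : c ∈ cyl n a := by
      rw [← cyl_eq hb]; exact cyl_mono (le_max_left _ _) b hc
    have h2 : c ∈ cyl m b := cyl_mono (le_max_right _ _) b hc
    refine ⟨h1, fun _ => ⟨h1, ?_⟩⟩
    rintro rfl
    exact hm h2

theorem XX.mem_bas_self (n : ℕ) (a : B) : XX.pt a ∈ XX.bas n a := mem_cyl_self n a

theorem XX.bas_subset {s : Set XX} (hs : IsOpen s) {a : B} (ha : XX.pt a ∈ s) :
    ∃ n, XX.bas n a ⊆ s := by
  obtain ⟨n, hn⟩ := hs a ha
  refine ⟨n, ?_⟩
  rintro (b | b) hb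
  · exact (hn b hb).1
  · exact (hn b hb.1).2 hb.2

theorem XX.locConst {α : Type*} (f : XX → α)
    (h : ∀ a, ∃ n, ∀ b ∈ cyl n a, f (XX.pt b) = f (XX.pt a) ∧
      (b ≠ a → f (XX.iso b) = f (XX.pt a))) : IsLocallyConstant f := by
  intro s
  rw [XX.isOpen_iff]
  intro a ha
  obtain ⟨n, hn⟩ := h a
  refine ⟨n, fun b hb => ?_⟩
  simp only [mem_preimage] at ha ⊢
  rw [(hn b hb).1]
  exact ⟨ha, fun hne => by rw [(hn b hb).2 hne]; exact ha⟩

instance : T1Space XX where
  t1 := by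
    rintro (a | a)
    · rw [← isOpen_compl_iff, XX.isOpen_iff]
      intro b hb
      have hba : a ≠ b := by
        rintro rfl; simp at hb
      obtain ⟨n, hn⟩ := exists_notMem_cyl hba
      refine ⟨n, fun c hc => ⟨?_, fun _ => by simp⟩⟩
      simp only [mem_compl_iff, mem_singleton_iff, XX.pt.injEq]
      rintro rfl
      exact hn hc
    · rw [← isOpen_compl_iff, XX.isOpen_iff]
      intro b _
      by_cases hba : a = b
      · subst hba
        exact ⟨0, fun c _ => ⟨by simp, fun hne => by simpa using hne⟩⟩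
      · obtain ⟨n, hn⟩ := exists_notMem_cyl hba
        refine ⟨n, fun c hc => ⟨by simp, fun _ => ?_⟩⟩
        simp only [mem_compl_iff, mem_singleton_iff, XX.iso.injEq]
        rintro rfl
        exact hn hc

/-- Every open cover of `XX` has a locally constant selector. -/
theorem XX.selector {ι : Type*} (U : ι → Set XX) (hU : ∀ i, IsOpen (U i))
    (hcov : ∀ x, ∃ i, x ∈ U i) : ∃ S : XX → ι, IsLocallyConstant S ∧ ∀ x, x ∈ U (S x) := by
  classical
  -- good sets
  let goodD : Set B → ι × ι × B → Prop := fun C D =>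
    (∀ b ∈ C, XX.pt b ∈ U D.1) ∧ (∀ b ∈ C, b ≠ D.2.2 → XX.iso b ∈ U D.1) ∧
      XX.iso D.2.2 ∈ U D.2.1
  have hex : ∀ b : B, ∃ n, ∃ D, goodD (cyl n b) D := by
    intro b
    obtain ⟨i, hi⟩ := hcov (XX.pt b)
    obtain ⟨i', hi'⟩ := hcov (XX.iso b)
    obtain ⟨n, hn⟩ := hU i b hi
    exact ⟨n, (i, i', b), fun c hc => (hn c hc).1, fun c hc hne => (hn c hc).2 hne, hi'⟩
  obtain ⟨i0, _⟩ := hcov (XX.pt (fun _ => ⟨(exists_good id).choose, (exists_good id).choose_spec.1⟩))
  have hch : ∀ C : Set B, ∃ D, (∃ D', goodD C D') → goodD C D := by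
    intro C
    by_cases h : ∃ D', goodD C D'
    · exact ⟨h.choose, fun _ => h.choose_spec⟩
    · exact ⟨(i0, i0, fun _ => ⟨(exists_good id).choose, (exists_good id).choose_spec.1⟩),
        fun h' => absurd h' h⟩
  choose dat hdat using hch
  let nn : B → ℕ := fun b => Nat.find (hex b)
  have hnn : ∀ b, goodD (cyl (nn b) b) (dat (cyl (nn b) b)) := fun b =>
    hdat _ (Nat.find_spec (hex b))
  have hloc : ∀ b, ∀ b' ∈ cyl (nn b) b, nn b' = nn b := by
    intro b b' hb'
    apply le_antisymm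
    · apply Nat.find_min'
      rw [cyl_eq hb']
      exact Nat.find_spec (hex b)
    · by_contra hlt
      push Not at hlt
      have h1 : cyl (nn b') b' = cyl (nn b') b := cyl_eq (cyl_mono hlt.le b hb')
      have h2 := Nat.find_spec (hex b')
      change ∃ D, goodD (cyl (nn b') b') D at h2
      rw [h1] at h2
      exact Nat.find_min (hex b) hlt h2
  have hloc2 : ∀ b, ∀ b' ∈ cyl (nn b) b, cyl (nn b') b' = cyl (nn b) b := by
    intro b b' hb'
    rw [hloc b b' hb', cyl_eq hb']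
  let S : XX → ι := fun x => match x with
    | XX.pt b => (dat (cyl (nn b) b)).1
    | XX.iso b => if b = (dat (cyl (nn b) b)).2.2 then (dat (cyl (nn b) b)).2.1
        else (dat (cyl (nn b) b)).1
  refine ⟨S, XX.locConst S ?_, ?_⟩
  · intro a
    by_cases ha : (dat (cyl (nn a) a)).2.2 = a
    · refine ⟨nn a, fun b hb => ?_⟩
      simp only [S]
      rw [hloc2 a b hb]
      refine ⟨rfl, fun hne => ?_⟩
      rw [if_neg (by rw [ha]; exact hne)]
    · obtain ⟨m, hm⟩ := exists_notMem_cyl ha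
      refine ⟨max (nn a) m, fun b hb => ?_⟩
      simp only [S]
      rw [hloc2 a b (cyl_mono (le_max_left _ _) a hb)]
      refine ⟨rfl, fun _ => ?_⟩
      rw [if_neg]
      rintro h
      rw [← h] at hm
      exact hm (cyl_mono (le_max_right _ _) a hb)
  · rintro (b | b)
    · exact (hnn b).1 b (mem_cyl_self _ _)
    · simp only [S]
      split_ifs with h
      · have := (hnn b).2.2
        rw [← h] at this
        exact this
      · exact (hnn b).2.1 b (mem_cyl_self _ _) h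

theorem XX.sep {G H : Set XX} (hG : IsClosed G) (hH : IsClosed H) (hd : Disjoint G H) :
    ∃ W : Set XX, IsClopen W ∧ G ⊆ W ∧ Disjoint W H := by
  obtain ⟨S, hS1, hS2⟩ := XX.selector (fun t : Bool => if t then Hᶜ else Gᶜ) (by
    intro t; cases t
    · simpa using hG
    · simpa using hH) (by
    intro x
    by_cases hx : x ∈ G
    · exact ⟨true, by simpa using fun h => (disjoint_left.1 hd) hx h⟩
    · exact ⟨false, by simpa using hx⟩)
  refine ⟨S ⁻¹' {true}, ⟨⟨?_⟩, hS1 _⟩, ?_, ?_⟩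
  · rw [← preimage_compl]; exact hS1 _
  · intro x hx
    by_contra h
    have h1 : S x = false := by simpa using h
    have := hS2 x
    rw [h1] at this
    simp at this
    exact this hx
  · rw [disjoint_left]
    intro x hx hxH
    have h1 : S x = true := hx
    have := hS2 x
    rw [h1] at this
    simp at this
    exact this hxH

instance : NormalSpace XX where
  normal := by
    intro s t hs ht hd
    obtain ⟨W, hW, h1, h2⟩ := XX.sep hs ht hd
    exact ⟨W, Wᶜ, hW.2, hW.compl.2, h1, fun x hx hxW => (disjoint_left.1 h2) hxW hx,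
      disjoint_compl_right⟩

instance : T4Space XX where

instance : ParacompactSpace XX where
  locallyFinite_refinement := by
    intro α s hs hcov
    obtain ⟨S, hS1, hS2⟩ := XX.selector s hs (by
      intro x
      have : x ∈ ⋃ a, s a := by rw [hcov]; trivial
      exact mem_iUnion.1 this)
    refine ⟨α, fun a => S ⁻¹' {a}, fun a => hS1 _, ?_, ?_, ?_⟩
    · ext x; simp
    · intro x
      refine ⟨S ⁻¹' {S x}, (hS1 _).mem_nhds rfl, ?_⟩
      refine (finite_singleton (S x)).subset ?_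
      rintro a ⟨y, hy1, hy2⟩
      have h1 : S y = a := hy1
      have h2 : S y = S x := hy2
      rw [mem_singleton_iff, ← h1, h2]
    · intro a
      refine ⟨a, fun x hx => ?_⟩
      have h1 : S x = a := hx
      rw [← h1]
      exact hS2 x

/-! ### Edges -/

/-- Pairs of different points together with finite sets of coordinates such that common
coordinates do not distinguish the points. -/
structure Edge (j : ℕ) : Type where
  a : B
  a' : B
  G : Finset (Co j)
  G' : Finset (Co j)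
  ne : a ≠ a'
  agree : ∀ c ∈ G, c ∈ G' → c.1 a = c.1 a'

/-- The edge `x` lies in the neighbourhood given by `F` of the point `d`. -/
def Edge.Near {j : ℕ} (x : Edge j) (d : B) (F : Finset (Co j)) : Prop :=
  (x.a = d ∧ F ⊆ x.G) ∨ (x.a' = d ∧ F ⊆ x.G')

theorem Edge.Near.mono {j : ℕ} {x : Edge j} {d : B} {F F' : Finset (Co j)} (h : F ⊆ F')
    (hx : x.Near d F') : x.Near d F := by
  rcases hx with ⟨h1, h2⟩ | ⟨h1, h2⟩
  · exact Or.inl ⟨h1, h.trans h2⟩
  · exact Or.inr ⟨h1, h.trans h2⟩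

theorem Edge.Near.common {j : ℕ} {x : Edge j} {d d' : B} {F F' : Finset (Co j)} (hd : d ≠ d')
    (hx : x.Near d F) (hx' : x.Near d' F') : ∀ c ∈ F, c ∈ F' → c.1 d = c.1 d' := by
  intro c hc hc'
  rcases hx with ⟨rfl, h2⟩ | ⟨rfl, h2⟩ <;> rcases hx' with ⟨rfl, h2'⟩ | ⟨rfl, h2'⟩
  · exact absurd rfl hd
  · exact x.agree c (h2 hc) (h2' hc')
  · exact (x.agree c (h2' hc') (h2 hc)).symm
  · exact absurd rfl hd

/-! ### The space `YY` -/

/-- The space `YY`: points `y j a` and isolated points, the edges. -/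
inductive YY : Type
  | y (j : ℕ) (a : B)
  | e (j : ℕ) (x : Edge j)

open Classical in
instance : TopologicalSpace YY where
  IsOpen s := ∀ j a, YY.y j a ∈ s → ∃ F : Finset (Co j), ∀ x : Edge j, x.Near a F → YY.e j x ∈ s
  isOpen_univ := fun _ _ _ => ⟨∅, fun _ _ => trivial⟩
  isOpen_inter := by
    intro s t hs ht j a ha
    obtain ⟨F, hF⟩ := hs j a ha.1
    obtain ⟨F', hF'⟩ := ht j a ha.2
    refine ⟨F ∪ F', fun x hx => ⟨hF x ?_, hF' x ?_⟩⟩
    · exact hx.mono Finset.subset_union_left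
    · exact hx.mono Finset.subset_union_right
  isOpen_sUnion := by
    intro S hS j a ha
    obtain ⟨s, hs, has⟩ := ha
    obtain ⟨F, hF⟩ := hS s hs j a has
    exact ⟨F, fun x hx => ⟨s, hs, hF x hx⟩⟩

theorem YY.isOpen_iff {s : Set YY} : IsOpen s ↔ ∀ j a, YY.y j a ∈ s →
    ∃ F : Finset (Co j), ∀ x : Edge j, x.Near a F → YY.e j x ∈ s := Iff.rfl

/-- Basic neighbourhoods in `YY`. -/
def YY.bas (j : ℕ) (a : B) (F : Finset (Co j)) : Set YY :=
  insert (YY.y j a) {z | ∃ x : Edge j, x.Near a F ∧ z = YY.e j x}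

theorem YY.isOpen_bas (j : ℕ) (a : B) (F : Finset (Co j)) : IsOpen (YY.bas j a F) := by
  rw [YY.isOpen_iff]
  intro j' a' h
  have h1 : YY.y j' a' = YY.y j a := by
    rcases h with h | ⟨x, _, h⟩
    · exact h
    · simp at h
  obtain ⟨rfl, rfl⟩ := YY.y.inj h1
  exact ⟨F, fun x hx => Or.inr ⟨x, hx, rfl⟩⟩

theorem YY.mem_bas_self (j : ℕ) (a : B) (F : Finset (Co j)) : YY.y j a ∈ YY.bas j a F :=
  Or.inl rfl

theorem YY.e_mem_bas {j : ℕ} {x : Edge j} {a : B} {F : Finset (Co j)} (h : x.Near a F) :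
    YY.e j x ∈ YY.bas j a F := Or.inr ⟨x, h, rfl⟩

theorem YY.bas_subset {s : Set YY} (hs : IsOpen s) {j : ℕ} {a : B} (ha : YY.y j a ∈ s) :
    ∃ F, YY.bas j a F ⊆ s := by
  obtain ⟨F, hF⟩ := hs j a ha
  refine ⟨F, ?_⟩
  rintro z (rfl | ⟨x, hx, rfl⟩)
  · exact ha
  · exact hF x hx

theorem YY.isOpen_e (j : ℕ) (x : Edge j) : IsOpen ({YY.e j x} : Set YY) := by
  rw [YY.isOpen_iff]
  intro j' a' h
  simp at h

/-- There are coordinates outside every finite set. -/
theorem exists_notMem (j : ℕ) (F : Finset (Co j)) : ∃ c : Co j, c ∉ F := by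
  have : Infinite (Co j) := by
    refine Infinite.of_injective (fun n : ℕ =>
      (⟨fun _ => Sum.inl (some (true, true, n)), reg_inl j _ fun _ => ⟨_, rfl⟩⟩ : Co j)) ?_
    intro n m h
    have h1 := congrFun (congrArg Subtype.val h)
      (fun _ => ⟨(exists_good id).choose, (exists_good id).choose_spec.1⟩)
    simpa using h1
  exact Infinite.exists_notMem_finset F

theorem Edge.exists_not_near {j : ℕ} (x : Edge j) :
    ∃ F : Finset (Co j), ∀ d, ¬ x.Near d F := by
  classical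
  obtain ⟨c, hc⟩ := exists_notMem j (x.G ∪ x.G')
  refine ⟨{c}, fun d hd => hc ?_⟩
  rw [Finset.mem_union]
  rcases hd with ⟨_, h⟩ | ⟨_, h⟩
  · exact Or.inl (h (Finset.mem_singleton_self c))
  · exact Or.inr (h (Finset.mem_singleton_self c))

instance : T1Space YY where
  t1 := by
    rintro (⟨j, a⟩ | ⟨j, x⟩)
    · rw [← isOpen_compl_iff, YY.isOpen_iff]
      intro j' a' _
      exact ⟨∅, fun x _ => by simp⟩
    · rw [← isOpen_compl_iff, YY.isOpen_iff]
      intro j' a' _
      by_cases hj : j' = j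
      · subst hj
        obtain ⟨F, hF⟩ := x.exists_not_near
        refine ⟨F, fun x' hx' => ?_⟩
        simp only [mem_compl_iff, mem_singleton_iff, YY.e.injEq, heq_eq_eq, true_and]
        rintro rfl
        exact hF _ hx'
      · refine ⟨∅, fun x' _ => ?_⟩
        simp only [mem_compl_iff, mem_singleton_iff, YY.e.injEq, not_and]
        exact fun h => absurd h hj

/-! ### The space `ZZ` -/

/-- The space `ZZ`: points `z a` and isolated points, the edges. -/
inductive ZZ : Type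
  | z (a : B)
  | e (j : ℕ) (x : Edge j)

open Classical in
instance : TopologicalSpace ZZ where
  IsOpen s := ∀ a, ZZ.z a ∈ s → ∀ j, ∃ F : Finset (Co j), ∀ x : Edge j, x.Near a F → ZZ.e j x ∈ s
  isOpen_univ := fun _ _ _ => ⟨∅, fun _ _ => trivial⟩
  isOpen_inter := by
    intro s t hs ht a ha j
    obtain ⟨F, hF⟩ := hs a ha.1 j
    obtain ⟨F', hF'⟩ := ht a ha.2 j
    refine ⟨F ∪ F', fun x hx => ⟨hF x ?_, hF' x ?_⟩⟩
    · exact hx.mono Finset.subset_union_left
    · exact hx.mono Finset.subset_union_right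
  isOpen_sUnion := by
    intro S hS a ha j
    obtain ⟨s, hs, has⟩ := ha
    obtain ⟨F, hF⟩ := hS s hs a has j
    exact ⟨F, fun x hx => ⟨s, hs, hF x hx⟩⟩

theorem ZZ.isOpen_iff {s : Set ZZ} : IsOpen s ↔ ∀ a, ZZ.z a ∈ s → ∀ j,
    ∃ F : Finset (Co j), ∀ x : Edge j, x.Near a F → ZZ.e j x ∈ s := Iff.rfl

instance : T1Space ZZ where
  t1 := by
    rintro (a | ⟨j, x⟩)
    · rw [← isOpen_compl_iff, ZZ.isOpen_iff]
      intro a' _ j'
      exact ⟨∅, fun x _ => by simp⟩
    · rw [← isOpen_compl_iff, ZZ.isOpen_iff]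
      intro a' _ j'
      by_cases hj : j' = j
      · subst hj
        obtain ⟨F, hF⟩ := x.exists_not_near
        refine ⟨F, fun x' hx' => ?_⟩
        simp only [mem_compl_iff, mem_singleton_iff, ZZ.e.injEq, heq_eq_eq, true_and]
        rintro rfl
        exact hF _ hx'
      · refine ⟨∅, fun x' _ => ?_⟩
        simp only [mem_compl_iff, mem_singleton_iff, ZZ.e.injEq, not_and]
        exact fun h => absurd h hj

/-- The closed map from `YY` to `ZZ`. -/
def ff : YY → ZZ
  | YY.y _ a => ZZ.z a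
  | YY.e j x => ZZ.e j x

theorem continuous_ff : Continuous ff := by
  refine ⟨fun s hs => ?_⟩
  rw [YY.isOpen_iff]
  intro j a ha
  exact hs a ha j

theorem surjective_ff : Function.Surjective ff := by
  rintro (a | ⟨j, x⟩)
  · exact ⟨YY.y 0 a, rfl⟩
  · exact ⟨YY.e j x, rfl⟩

theorem isClosedMap_ff : IsClosedMap ff := by
  intro K hK
  rw [← isOpen_compl_iff, ZZ.isOpen_iff]
  intro a ha j
  have h1 : YY.y j a ∈ Kᶜ := fun h => ha ⟨_, h, rfl⟩
  obtain ⟨F, hF⟩ := hK.isOpen_compl j a h1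
  refine ⟨F, fun x hx => ?_⟩
  rintro ⟨w, hw, hwe⟩
  rcases w with ⟨j', a'⟩ | ⟨j', x'⟩
  · simp [ff] at hwe
  · have h2 : YY.e j' x' = YY.e j x := by
      simp only [ff, ZZ.e.injEq] at hwe
      obtain ⟨rfl, h3⟩ := hwe
      rw [eq_of_heq h3]
    rw [h2] at hw
    exact hF x hx hw

end Pool.Agent.H732.RS
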